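import Mathlib
import Pool.Agent.Hhelper66.Sep.Defs
import Pool.Agent.Hhelper66.Sep.Main

set_option autoImplicit false

open Filter Pool.Agent.Hhelper66.Sep

namespace Pool.Agent.Results.MP_fe703c_gt.LogSeparationNotHyperbolic

/-- There is a connected, locally finite, quasi-transitive graph with logarithmic separation
profile which is not hyperbolic; indeed non-hyperbolic connected locally finite vertex-transitive
graphs can have separation profiles growing arbitrarily slowly. -/
theorem result :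
    (∃ (V : Type) (Γ : SimpleGraph V), Γ.Connected ∧ IsLocallyFinite Γ ∧ IsQuasiTransitive Γ ∧
      (∃ C : ℝ, ∀ n : ℕ, 2 ≤ n → (sep Γ n : ℝ) ≤ C * Real.log n) ∧ ¬ IsHyperbolic Γ) ∧
    (∀ f : ℕ → ℝ, Tendsto f atTop atTop →
      ∃ (V : Type) (Γ : SimpleGraph V), Γ.Connected ∧ IsLocallyFinite Γ ∧ IsVertexTransitive Γ ∧
        (∀ᶠ n : ℕ in atTop, (sep Γ n : ℝ) ≤ f n) ∧ ¬ IsHyperbolic Γ) :=
  ⟨exists_log, exists_slow⟩

end Pool.Agent.Results.MP_fe703c_gt.LogSeparationNotHyperbolic
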